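import Pool.Agent.Helper36.SPR.St

/-!
# Project SPR (MP_343216_nt): module FQ

Flattening for the modulus `p q`.
-/

set_option autoImplicit false

namespace Pool.Agent.Helper95.SPR

open Finset
open Pool.Agent.Helper36.SPR

lemma agr_eq (m n : ℕ) [NeZero m] (S : Finset ((ZMod n)ˣ)) :
    agr m S = ∑ u : ZMod m,
      (S.filter (fun s : (ZMod n)ˣ => (ZMod.cast (s : ZMod n) : ZMod m) = u)).card ^ 2 := by
  unfold agr
  rw [Finset.card_eq_sum_card_fiberwise
    (f := fun x : (ZMod n)ˣ × (ZMod n)ˣ => (ZMod.cast (x.1 : ZMod n) : ZMod m))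
    (t := Finset.univ) (fun _ _ => Finset.mem_coe.2 (Finset.mem_univ _))]
  refine Finset.sum_congr rfl ?_
  intro u _
  rw [sq, ← Finset.card_product]
  congr 1
  ext ⟨a, b⟩
  simp only [Finset.mem_filter, Finset.mem_product]
  constructor
  · rintro ⟨⟨⟨ha, hb⟩, h⟩, hu⟩
    exact ⟨⟨ha, hu⟩, hb, h ▸ hu⟩
  · rintro ⟨⟨ha, hu⟩, hb, hv⟩
    exact ⟨⟨⟨ha, hb⟩, hu.trans hv.symm⟩, hu⟩

lemma agr_bound (m n : ℕ) [NeZero m] [NeZero n] (S : Finset ((ZMod n)ˣ))
    (f : ZMod n → ℝ) (g : ZMod m → ℝ) (c : ℝ) (hc : 0 ≤ c) (hf : ∀ x, 0 ≤ f x)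
    (hfg : ∀ u : ZMod m, ∑ x ∈ (univ : Finset (ZMod n)).filter
      (fun x => (ZMod.cast x : ZMod m) = u), f x = g u)
    (hS : ∀ s ∈ S, c ≤ f (s : ZMod n)) :
    c ^ 2 * (agr m S : ℝ) ≤ ∑ u : ZMod m, g u ^ 2 := by
  rw [agr_eq]
  push_cast
  rw [Finset.mul_sum]
  refine Finset.sum_le_sum ?_
  intro u _
  rw [← mul_pow]
  refine pow_le_pow_left₀ (by positivity) ?_ 2
  have h1 : c * ((S.filter (fun s : (ZMod n)ˣ => (ZMod.cast (s : ZMod n) : ZMod m) = u)).card : ℝ)
      ≤ ∑ s ∈ S.filter (fun s : (ZMod n)ˣ => (ZMod.cast (s : ZMod n) : ZMod m) = u),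
        f (s : ZMod n) := by
    have h := Finset.card_nsmul_le_sum
      (S.filter (fun s : (ZMod n)ˣ => (ZMod.cast (s : ZMod n) : ZMod m) = u))
      (fun s : (ZMod n)ˣ => f (s : ZMod n)) c
      (fun s hs => hS s (Finset.mem_filter.1 hs).1)
    rw [nsmul_eq_mul] at h
    linarith
  refine h1.trans ?_
  rw [← hfg u]
  have h2 : ∑ s ∈ S.filter (fun s : (ZMod n)ˣ => (ZMod.cast (s : ZMod n) : ZMod m) = u),
        f (s : ZMod n)
      = ∑ x ∈ (S.filter (fun s : (ZMod n)ˣ => (ZMod.cast (s : ZMod n) : ZMod m) = u)).image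
          (fun s : (ZMod n)ˣ => (s : ZMod n)), f x := by
    rw [Finset.sum_image]
    intro a _ b _ hab
    exact Units.ext hab
  rw [h2]
  refine Finset.sum_le_sum_of_subset_of_nonneg ?_ (fun x _ _ => hf x)
  intro x hx
  rw [Finset.mem_image] at hx
  obtain ⟨s, hs, rfl⟩ := hx
  rw [Finset.mem_filter] at hs ⊢
  exact ⟨Finset.mem_univ _, hs.2⟩

lemma nonunit_cast (p q : ℕ) [NeZero p] [NeZero q] (hp : p.Prime) (hq : q.Prime)
    (x : ZMod (p * q)) (hx : ¬ IsUnit x) :
    (ZMod.cast x : ZMod p) = 0 ∨ (ZMod.cast x : ZMod q) = 0 := by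
  have h1 : ((x.val : ℕ) : ZMod (p * q)) = x := ZMod.natCast_zmod_val x
  have h2 : ¬ Nat.Coprime x.val (p * q) := by
    intro hcop
    apply hx
    rw [← h1]
    exact (ZMod.isUnit_iff_coprime _ _).2 hcop
  rw [Nat.coprime_mul_iff_right] at h2
  by_cases h3 : Nat.Coprime x.val p
  · right
    have h4 : ¬ Nat.Coprime x.val q := fun h => h2 ⟨h3, h⟩
    have h5 : q ∣ x.val := by
      by_contra h6
      exact h4 ((Nat.Prime.coprime_iff_not_dvd hq).2 h6).symm
    rw [ZMod.cast_eq_val]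
    exact (ZMod.natCast_eq_zero_iff _ _).2 h5
  · left
    have h5 : p ∣ x.val := by
      by_contra h6
      exact h3 ((Nat.Prime.coprime_iff_not_dvd hp).2 h6).symm
    rw [ZMod.cast_eq_val]
    exact (ZMod.natCast_eq_zero_iff _ _).2 h5

lemma eta_bound (hNA : StNA) (hNP : StNP) (p q T j : ℕ) [NeZero p] [NeZero q]
    (hp : p.Prime) (hq : q.Prime) (hT : 0 < T) :
    (∑ x : ZMod (p * q), if IsUnit x then 0 else nu (p * q) T j x) ≤ bet p T j + bet q T j := by
  have hn := (hNA (p * q) T hT j).1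
  have h1 := (hNP p (p * q) T (Dvd.intro _ rfl) hT j).1 0
  have h2 := (hNP q (p * q) T (Dvd.intro_left _ rfl) hT j).1 0
  unfold bet
  rw [← h1, ← h2, Finset.sum_filter, Finset.sum_filter, ← Finset.sum_add_distrib]
  refine Finset.sum_le_sum ?_
  intro x _
  have hx := hn x
  by_cases hu : IsUnit x
  · rw [if_pos hu]
    split_ifs <;> linarith
  · rw [if_neg hu]
    rcases nonunit_cast p q hp hq x hu with h | h
    · rw [if_pos h]
      split_ifs <;> linarith
    · rw [if_pos h]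
      split_ifs <;> linarith

/-- the numerical bound for `agr` -/
lemma agr_num (K P b a d s : ℝ) (hK : 2 ≤ K) (hP : 0 < P) (hb : 2 / (K * P) ≤ b) (ha : 0 ≤ a)
    (h : (b / (32 * K)) ^ 2 * a ≤ d) (hd : d ≤ 2 / P) (hs : P ≤ K ^ 82 * s) :
    a ≤ K ^ 218 * s := by
  have hK0 : 0 < K := by linarith
  have h1 : 1 / (16 * K ^ 2 * P) ≤ b / (32 * K) := by
    calc 1 / (16 * K ^ 2 * P) = (2 / (K * P)) / (32 * K) := by field_simp; ring
      _ ≤ b / (32 * K) := div_le_div_of_nonneg_right hb (by positivity)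
  have h2 : (1 / (16 * K ^ 2 * P)) ^ 2 * a ≤ 2 / P := by
    calc (1 / (16 * K ^ 2 * P)) ^ 2 * a ≤ (b / (32 * K)) ^ 2 * a := by
          apply mul_le_mul_of_nonneg_right _ ha
          exact pow_le_pow_left₀ (by positivity) h1 2
      _ ≤ d := h
      _ ≤ 2 / P := hd
  have h3 : a ≤ 512 * K ^ 4 * P := by
    have e : (1 / (16 * K ^ 2 * P)) ^ 2 * a = a / (256 * K ^ 4 * P ^ 2) := by
      field_simp
      ring
    rw [e, div_le_iff₀ (by positivity)] at h2
    calc a ≤ 2 / P * (256 * K ^ 4 * P ^ 2) := h2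
      _ = 512 * K ^ 4 * P := by field_simp; ring
  have h9 : (512 : ℝ) ≤ K ^ 9 := by
    calc (512 : ℝ) = 2 ^ 9 := by norm_num
      _ ≤ K ^ 9 := pow_le_pow_left₀ (by norm_num) hK 9
  have hs0 : 0 ≤ s := by
    by_contra hneg
    push Not at hneg
    have : K ^ 82 * s < 0 := mul_neg_of_pos_of_neg (by positivity) hneg
    linarith
  calc a ≤ 512 * K ^ 4 * P := h3
    _ ≤ K ^ 9 * K ^ 4 * (K ^ 82 * s) := by
        apply mul_le_mul _ hs hP.le (by positivity)
        exact mul_le_mul_of_nonneg_right h9 (by positivity)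
    _ = K ^ 95 * s := by ring
    _ ≤ K ^ 218 * s := by
        apply mul_le_mul_of_nonneg_right _ hs0
        exact pow_le_pow_right₀ (by linarith) (by norm_num)

theorem hFQ (hNA : StNA) (hNB : StNB) (hNP : StNP) (hST : StST) (hSQ : StSQ) : StFQ := by
  intro p q T j _ _ K hp hq hpq hT h2T hj hK hqK hbp hbq hlow
  have hK0 : 0 < K := by linarith
  have hK1 : 1 ≤ K := by linarith
  have hP : (0 : ℝ) < p := by exact_mod_cast hp.pos
  have hQ : (0 : ℝ) < q := by exact_mod_cast hq.pos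
  have hPQ : (p : ℝ) ≤ q := by exact_mod_cast hpq.le
  have h2qp : 2 / (q : ℝ) ≤ 2 / p := div_le_div_of_nonneg_left (by norm_num) hP hPQ
  obtain ⟨b, hbdef⟩ : ∃ b, b = bet (p * q) T j := ⟨_, rfl⟩
  have hjj : j ≤ 4 * j ^ 2 := by nlinarith
  have hmono : bet (p * q) T (4 * j ^ 2) ≤ b := by
    rw [hbdef]
    exact (hNB (p * q) T hT j).2.2.2.2.2.2 _ hjj
  have hb1 : 2 / (K * p) ≤ b := hlow.trans hmono
  have hb0 : 0 < b := lt_of_lt_of_le (by positivity) hb1
  have hb2 : b ≤ 2 / p := by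
    rw [hbdef]
    exact ((hNP q (p * q) T (Dvd.intro_left _ rfl) hT j).2.trans hbq).trans h2qp
  have hflat : bet (p * q) T j ≤ K * bet (p * q) T (4 * j ^ 2) := by
    rw [← hbdef]
    calc b ≤ 2 / p := hb2
      _ = K * (2 / (K * p)) := by field_simp
      _ ≤ K * bet (p * q) T (4 * j ^ 2) := mul_le_mul_of_nonneg_left hlow hK0.le
  have heta := eta_bound hNA hNP p q T j hp hq hT
  have heta0 : 0 ≤ (∑ x : ZMod (p * q), if IsUnit x then 0 else nu (p * q) T j x) := by
    refine Finset.sum_nonneg ?_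
    intro x _
    split_ifs
    · exact le_refl _
    · exact (hNA (p * q) T hT j).1 x
  have heta4 : (∑ x : ZMod (p * q), if IsUnit x then 0 else nu (p * q) T j x) ≤ 4 / p := by
    calc (∑ x : ZMod (p * q), if IsUnit x then 0 else nu (p * q) T j x)
        ≤ bet p T j + bet q T j := heta
      _ ≤ 2 / p + 2 / p := add_le_add hbp (hbq.trans h2qp)
      _ = 4 / p := by ring
  by_cases hcase : 4 * (∑ x : ZMod (p * q), if IsUnit x then 0 else nu (p * q) T j x) ^ 2
      ≤ bet (p * q) T j / (2 * K)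
  · obtain ⟨S, hSne, hSd, hSr, hS1, hS2, hS3⟩ :=
      hST (p * q) T hT h2T j K hj hK hflat hcase
    rw [← hbdef] at hS1 hS2 hS3
    have hs82 : (p : ℝ) ≤ K ^ 82 * S.card := by
      have h1 : 1 ≤ K ^ 81 * (2 / p) * S.card := by
        refine hS1.trans ?_
        apply mul_le_mul_of_nonneg_right _ (Nat.cast_nonneg _)
        exact mul_le_mul_of_nonneg_left hb2 (by positivity)
      have h2 : (p : ℝ) ≤ 2 * K ^ 81 * S.card := by
        have e : K ^ 81 * (2 / (p : ℝ)) * S.card = (2 * K ^ 81 * S.card) / p := by ring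
        rw [e, le_div_iff₀ hP] at h1
        linarith
      calc (p : ℝ) ≤ 2 * K ^ 81 * S.card := h2
        _ ≤ K * K ^ 81 * S.card := by
            apply mul_le_mul_of_nonneg_right _ (Nat.cast_nonneg _)
            exact mul_le_mul_of_nonneg_right hK (by positivity)
        _ = K ^ 82 * S.card := by ring
    have hs7 : (S.card : ℝ) ≤ K ^ 7 * p := by
      have h1 : (S.card : ℝ) * (2 / (K * p)) ≤ K ^ 6 :=
        (mul_le_mul_of_nonneg_left hb1 (Nat.cast_nonneg _)).trans hS2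
      have e : (S.card : ℝ) * (2 / (K * p)) = (2 * S.card) / (K * p) := by ring
      rw [e, div_le_iff₀ (by positivity)] at h1
      have h3 : (0 : ℝ) ≤ S.card := Nat.cast_nonneg _
      have e2 : K ^ 6 * (K * p) = K ^ 7 * p := by ring
      rw [e2] at h1
      linarith
    have hnu : ∀ s ∈ S, b / (32 * K) ≤ nu (p * q) T j (s : ZMod (p * q)) := by
      intro s hs
      rw [div_le_iff₀ (by positivity)]
      have := hS3 s hs
      linarith
    have hagr : ∀ (m : ℕ) [NeZero m], m ∣ p * q → bet m T j ≤ 2 / p →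
        (agr m S : ℝ) ≤ K ^ 218 * S.card := by
      intro m _ hm hbm
      have h1 := agr_bound m (p * q) S (nu (p * q) T j) (nu m T j) (b / (32 * K))
        (by positivity) (hNA (p * q) T hT j).1 (hNP m (p * q) T hm hT j).1 hnu
      rw [(hNB m T hT j).2.2.2.2.2.1] at h1
      have h2 : bet m T (2 * j) ≤ 2 / p :=
        ((hNB m T hT j).2.2.2.2.2.2 (2 * j) (by omega)).trans hbm
      exact agr_num K p b _ _ _ hK hP hb1 (Nat.cast_nonneg _) h1 h2 hs82
    have hM2 : (2 : ℝ) ≤ K ^ 218 := by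
      calc (2 : ℝ) ≤ K := hK
        _ = K ^ 1 := (pow_one K).symm
        _ ≤ K ^ 218 := pow_le_pow_right₀ hK1 (by norm_num)
    have hfin := hSQ p q hp hq hpq S (K ^ 218) hSne hM2 hSd hSr
      (hagr p (Dvd.intro _ rfl) hbp) (hagr q (Dvd.intro_left _ rfl) (hbq.trans h2qp))
      (hs82.trans (mul_le_mul_of_nonneg_right (pow_le_pow_right₀ hK1 (by norm_num))
        (Nat.cast_nonneg _)))
      (hs7.trans (mul_le_mul_of_nonneg_right (pow_le_pow_right₀ hK1 (by norm_num)) hP.le))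
      (hqK.trans (mul_le_mul_of_nonneg_right (by
        calc K = K ^ 1 := (pow_one K).symm
          _ ≤ K ^ 218 := pow_le_pow_right₀ hK1 (by norm_num)) hP.le))
    rw [← pow_mul] at hfin
    exact hfin.trans (pow_le_pow_right₀ hK1 (by norm_num))
  · push Not at hcase
    rw [← hbdef] at hcase
    have h1 : 1 / (K ^ 2 * p) ≤ b / (2 * K) := by
      calc 1 / (K ^ 2 * (p : ℝ)) = (2 / (K * p)) / (2 * K) := by field_simp
        _ ≤ b / (2 * K) := div_le_div_of_nonneg_right hb1 (by positivity)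
    have h2 : 4 * (∑ x : ZMod (p * q), if IsUnit x then 0 else nu (p * q) T j x) ^ 2
        ≤ 64 / (p : ℝ) ^ 2 := by
      calc 4 * (∑ x : ZMod (p * q), if IsUnit x then 0 else nu (p * q) T j x) ^ 2
          ≤ 4 * (4 / (p : ℝ)) ^ 2 := by
            apply mul_le_mul_of_nonneg_left _ (by norm_num)
            exact pow_le_pow_left₀ heta0 heta4 2
        _ = 64 / (p : ℝ) ^ 2 := by ring
    have h3 : 1 / (K ^ 2 * (p : ℝ)) < 64 / (p : ℝ) ^ 2 :=
      lt_of_le_of_lt h1 (lt_of_lt_of_le hcase h2)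
    have h4 : (p : ℝ) < 64 * K ^ 2 := by
      rw [div_lt_div_iff₀ (by positivity) (by positivity)] at h3
      have h5 : (p : ℝ) * p < (64 * K ^ 2) * p := by nlinarith
      exact lt_of_mul_lt_mul_right h5 hP.le
    have h6 : (64 : ℝ) ≤ K ^ 6 := by
      calc (64 : ℝ) = 2 ^ 6 := by norm_num
        _ ≤ K ^ 6 := pow_le_pow_left₀ (by norm_num) hK 6
    calc (p : ℝ) ≤ 64 * K ^ 2 := h4.le
      _ ≤ K ^ 6 * K ^ 2 := mul_le_mul_of_nonneg_right h6 (by positivity)
      _ = K ^ 8 := by ring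
      _ ≤ K ^ 24000 := pow_le_pow_right₀ hK1 (by norm_num)

end Pool.Agent.Helper95.SPR
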