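import Pool.Agent.Helper36.SPR.St4

/-!
# Project SPR3 (MP_343216_nt): module NP3

Adaptation of `Pool/Agent/Helper68/SPR/M_NP.lean`.
-/

set_option autoImplicit false

namespace Pool.Agent.Helper95.SPR

open Pool.Agent.Helper36.SPR
open Finset

theorem np_proj3 (m n T : ℕ) [NeZero m] [NeZero n] (hmn : m ∣ n) (th : ZMod n) (j : ℕ) :
    ∀ u : ZMod m, (∑ x ∈ (univ : Finset (ZMod n)).filter
      (fun x => (ZMod.castHom hmn (ZMod m)) x = u), nuv n T th j x)
        = nuv m T ((ZMod.castHom hmn (ZMod m)) th) j u := by
  induction j with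
  | zero =>
    intro u
    rw [Finset.sum_filter]
    simp only [nuv]
    rw [Finset.sum_eq_single (0 : ZMod n)]
    · rw [map_zero]
      by_cases h : u = 0
      · subst h; simp
      · rw [if_neg (Ne.symm h), if_neg h]
    · intro b _ hb
      rw [if_neg hb]
      simp
    · intro h
      exact absurd (mem_univ _) h
  | succ j ih =>
    intro u
    simp only [nuv]
    rw [← Finset.sum_div]
    congr 1
    rw [Finset.sum_comm]
    refine Finset.sum_congr rfl fun i _ => ?_
    rw [Finset.sum_comm]
    refine Finset.sum_congr rfl fun i' _ => ?_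
    rw [← ih (u - ((ZMod.castHom hmn (ZMod m)) th) ^ i + ((ZMod.castHom hmn (ZMod m)) th) ^ i')]
    refine Finset.sum_nbij' (fun x => x - th ^ i + th ^ i') (fun x => x + th ^ i - th ^ i')
      ?_ ?_ ?_ ?_ ?_
    · intro x hx
      simp only [mem_filter, mem_univ, true_and] at hx ⊢
      rw [map_add, map_sub, map_pow, map_pow, hx]
    · intro x hx
      simp only [mem_filter, mem_univ, true_and] at hx ⊢
      rw [map_sub, map_add, map_pow, map_pow, hx]
      ring
    · intro x _
      ring
    · intro x _
      ring
    · intro x _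
      rfl

theorem hNP3 (hNA3 : StNA3) : StNP3 := by
  intro m n T _ _ th hmn hT j
  have h1 : ∀ u : ZMod m, ∑ x ∈ (univ : Finset (ZMod n)).filter
      (fun x => (ZMod.cast x : ZMod m) = u), nuv n T th j x
        = nuv m T (ZMod.cast th : ZMod m) j u := by
    intro u
    have h := np_proj3 m n T hmn th j u
    simp only [ZMod.castHom_apply] at h
    exact h
  refine ⟨h1, ?_⟩
  unfold betv
  rw [← h1 0]
  refine Finset.single_le_sum (f := fun x => nuv n T th j x)
    (fun x _ => (hNA3 n T th hT j).1 x) ?_
  simp

end Pool.Agent.Helper95.SPR
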