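import Pool.Agent.Helper36.SPR.St5

/-!
# Project SPR3 (MP_343216_nt): module PCG

Product over the blocks.
-/

set_option autoImplicit false

namespace Pool.Agent.Helper95.SPR

open Finset
open Pool.Agent.Helper36.SPR

lemma pc_one (k : ℕ) : PC k 1 1 1 (fun _ => 1) := by
  refine ⟨1, fun _ => 1, fun _ _ => 1, fun _ => 1, ?_, ?_, ?_⟩
  · intro l
    exact ⟨one_pos, le_rfl, dvd_rfl, fun v => ⟨zero_le_one, le_rfl⟩, fun v v' _ => rfl⟩
  · simp
  · intro v
    simp

theorem hPCG (hPCM : StPCM) (hPCF : StPCF) : StPCG := by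
  intro k J B M
  induction J with
  | zero =>
    intro _
    have h := pc_one k
    have e1 : Wb B 0 = 1 := by simp [Wb]
    have e2 : Gb k B 0 = fun _ => (1 : ℝ) := by
      funext v
      simp [Gb]
    rw [e1, e2, prod_range_zero, prod_range_zero]
    exact h
  | succ J ih =>
    intro h
    have h1 := ih (fun j hj => h j (Nat.lt_succ_of_lt hj))
    have h2 := hPCF k (M J) (B J) (h J (Nat.lt_succ_self J)).1 (h J (Nat.lt_succ_self J)).2
    have h3 := hPCM _ _ _ _ _ _ _ _ _ h1 h2
    have e1 : Wb B (J + 1) = Wb B J * ∏ p ∈ B J, (p - 1) := by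
      unfold Wb
      rw [prod_range_succ]
    have e2 : Gb k B (J + 1) = fun v => Gb k B J v * fb k (B J) v := by
      funext v
      unfold Gb
      rw [prod_range_succ]
    rw [e1, e2, prod_range_succ, prod_range_succ]
    exact h3

end Pool.Agent.Helper95.SPR
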